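import Mathlib
import Pool.Agent.PWM.Main

set_option autoImplicit false

/-!
# Faithfulness of the braid group in the Hecke algebra on alternating monoids

`BraidGroup M`, `HeckeAlgebra M` and `rho M` are defined in `Pool/Agent/Lib_helper18/Hecke/Defs.lean`
by generators and relations, as in the problem file (in a `CoxeterMatrix` the entry `0` is the
label `∞`). `TraceMonoid M` (`Pool/Agent/PWM/Desc.lean`) has the generators `x_s` and the relations
`x_s x_t = x_t x_s` for all `s`, `t` with `m_{st} = 2`.

For all nonzero integers `k_s` with `k_s k_t < 0` whenever `3 ≤ m_{st} < ∞` the homomorphism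
`x_s ↦ h_s ^ k_s` from the trace monoid to the units of the Hecke algebra is injective. So `rho M` is
injective on the submonoid of the braid group generated by the `σ_s ^ k_s`, and this submonoid is
the trace monoid.

Proof. At `v = i` the Hecke algebra acts on `ℂ^(S ∪ {∞})` by `h_s ↦ - i U_s`,
`U_s x = x + ψ_s(x) e_s`, `ψ_s(e_t) = ± 2 cos (π / m_{st})`, `ψ_s(e_∞) = ± 1`, `ψ_s(e_s) = 0`, with
the sign of `k_s`; the braid relations hold because `ψ_s(e_t) ψ_t(e_s) = - 4 cos² (π / m_{st})` for
finite labels `≥ 3`. So `h_s ^ k_s` is a fourth root of unity times `x ↦ x + |k_s| L_s(x) e_s`,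
`L_s` with nonnegative coefficients, and words preserve the cone of nonnegative vectors. If `x` is
in the cone then `{s | |k_s| L_s(x) < x_s}` is changed by the generator `s` as the set of the left
descents of a word in the trace monoid: `s` is added and its neighbours are removed.
-/

namespace Pool.Agent.Results.MP_c35589_al.AlternatingMonoid

open Pool.Agent.HeckeCox Pool.Agent.PWM

/-- For every Coxeter matrix and all nonzero integers `k s`, with opposite signs for every pair
with finite label `≥ 3`, the homomorphism from the trace monoid to the units of the Hecke algebra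
which maps the generator of `s` to `h_s ^ k s` is injective; it is `rho M` composed with a
homomorphism to the braid group. -/
theorem result {B : Type*} (M : CoxeterMatrix B) (k : B → ℤ) (hk : ∀ s, k s ≠ 0)
    (hs : ∀ s t, 3 ≤ M s t → k s * k t < 0) :
    ∃ f : TraceMonoid M →* BraidGroup M,
      (∀ s, f (PresentedMonoid.of (traceRels M) s) =
        (PresentedGroup.of s : BraidGroup M) ^ k s) ∧
      Function.Injective fun x => rho M (f x) :=
  ⟨powHom M k, powHom_of M k, inj_alt M k hk hs⟩

end Pool.Agent.Results.MP_c35589_al.AlternatingMonoid
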