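import Mathlib
import Pool.Agent.PWM.Large

set_option autoImplicit false

/-!
# Faithfulness of the braid group in the Hecke algebra on large powers of the generators

`BraidGroup M`, `HeckeAlgebra M` and `rho M` are defined in `Pool/Agent/Lib_helper18/Hecke/Defs.lean`
by generators and relations, as in the problem file (in a `CoxeterMatrix` the entry `0` is the
label `∞`).

For every Coxeter matrix, every set `T` of generators (finite or infinite) no two of which commute
and all integers `k_t`, `|k_t| ≥ 10`, the `h_t ^ k_t`, `t ∈ T`, freely generate a free group. So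
`rho M` is injective on the subgroup of the braid group generated by the `σ_t ^ k_t`, `t ∈ T`.

Proof. At `v = i` the Hecke algebra acts on `ℂ^(S ∪ {∞})` by `h_s x = - i x + L_s(x) e_s`,
`L_s(e_t) = 2 cos (π / m_{st})` (`2` for the label `∞`), `L_s(e_∞) = 1`, `L_s(e_s) = 0`, and
`h_s ^ n x = (-i)^n (x + n i L_s(x) e_s)`. Ping-pong with the sets
`X_t = {x ≠ 0 | ∑ |x_i| ≤ (11/9) |x_t|}`: the coefficients of `L_s` at `t ≠ s` are between `1` and
`2`.
-/

namespace Pool.Agent.Results.MP_c35589_al.LargePowers

open Pool.Agent.HeckeCox Pool.Agent.PWM

/-- For every Coxeter matrix, every set `T` of generators with `m_{st} ≠ 2` for all `s ≠ t` in `T`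
and all integers `k s` of absolute value at least `10`, the composition of `rho M` with the
homomorphism from the free group on `T` to the braid group which maps the generator of `s` to
`σ_s ^ k s` is injective. -/
theorem result {B : Type*} (M : CoxeterMatrix B) (T : Set B)
    (hT : ∀ s ∈ T, ∀ t ∈ T, s ≠ t → M s t ≠ 2) (k : B → ℤ) (hk : ∀ s ∈ T, 10 ≤ |k s|) :
    Function.Injective fun g : FreeGroup T =>
      rho M (FreeGroup.lift (fun s : T => (PresentedGroup.of (s : B) : BraidGroup M) ^ k s) g) := by
  have h := large M T hT k hk
  have e : (FreeGroup.lift fun s : T => hunit M (s : B) ^ k s) =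
      (rho M).comp (FreeGroup.lift fun s : T =>
        (PresentedGroup.of (s : B) : BraidGroup M) ^ k s) := by
    ext s
    simp [rho_of]
  rw [e] at h
  exact h

end Pool.Agent.Results.MP_c35589_al.LargePowers
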