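import Mathlib
import Pool.Agent.Lib_helper18.Hecke.GFinal

set_option autoImplicit false

/-!
# Faithfulness of the braid group in the Hecke algebra: irreducible triangles have an infinite
label, or all labels at least four, or labels `2` and twice at least six

`BraidGroup M`, `HeckeAlgebra M` and `rho M` are defined in `Pool/Agent/Lib_helper18/Hecke/Defs.lean`
by generators and relations, as in the problem file (in a `CoxeterMatrix` the entry `0` is the
label `∞`). The rank of the system is arbitrary, finite or infinite.

The hypothesis: whenever two finite labels `≥ 3` share a vertex, the third label of the triangle is
infinite, or all three labels are finite and `≥ 4`, or the third label is `2` and the two given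
ones are `≥ 6`. It covers

* all Coxeter systems of extra-large type (all labels `≥ 4` or `∞`),
* all Coxeter systems without a label `3`, `4` or `5` (that is, an arbitrary Coxeter graph with all
  its labels `≥ 6` or `∞`; right-angled systems are the case of all labels `∞`),
* all rank two systems,

and it is stable under direct and free products.

Outline of the proof. One works with the regular representation of the Hecke algebra on functions
on `W` and proves, for every finite set `P` of generators, the following property `QP`: if `g` in
the parabolic `B_P` moves some nonzero `c` supported on `W_J` to an element supported on
`W_I W_J` (`I, J ⊆ P`), then `g` lies in `B_I B_J`. For `I = J = ∅` and `c = h_1` this gives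
injectivity.

* The property passes to direct products and to amalgamated products over special subgroups.
* For dihedral groups (any label `≥ 3`) it combines positivity of the Hecke representation at real
  parameters, the geometric representation at `v = i`, and a ping-pong on a hyperbolic plane.
* For dihedral groups with label `≥ 4` there is a stronger statement with three factors (`Q3`):
  if `g` moves a nonzero element supported on `W_j` to one supported on `W_j W_i W_j`, then `g` lies
  in `B_j B_i B_j`. For labels `≥ 5` (`q3`) it is proved with a module over the group algebra at
  `v = i`; for the label `4` (`Q3_four`) with a Hermitian invariant and a rigidity property of the
  alternating Laurent polynomials `1 - T² + T⁴ - …` (`rigid0`).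
* For a set `P` all of whose labels are `2` or `≥ 4`, and such that two non-commuting pairs
  `{s,t}`, `{t,u}` with `s`, `u` commuting have labels `≥ 6` (`QP_G`): write `g` as a product of
  powers of generators and of elements of dihedral parabolics, with as few pieces as possible in a
  weighted count. The stronger dihedral statement gives, inside each dihedral piece, an element of
  `W` in the support with a long part. The products of these elements of dihedral subgroups and of
  the generators of the other pieces are controlled by the visibility theorem (`vis_main`): a left
  descent of such a product is a left descent of a piece which commutes with all pieces to the
  left of it. It is proved with roots in the geometric representation: two positive roots with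
  product `≤ -1` are not both inversions of one element. The visibility theorem implies a
  normal form in the product sets `W_{T₁} ⋯ W_{Tₙ}` (`greedy`, `claimG`), from which the
  coefficient at the last element is seen to be nonzero.
-/

namespace Pool.Agent.Results.MP_c35589_al.LargeTriangles

open Pool.Agent.HeckeCox

/-- The natural map from the braid group to the units of the generic Hecke algebra is injective
for every Coxeter system in which every irreducible rank three standard parabolic subgroup without
infinite label has either all labels at least four, or the labels `2, p, q` with `p, q ≥ 6`. -/
theorem result {B : Type*} (M : CoxeterMatrix B)
    (hM : ∀ s t u : B, s ≠ t → t ≠ u → s ≠ u → 3 ≤ M s t → 3 ≤ M t u →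
      M s u = 0 ∨ (4 ≤ M s t ∧ 4 ≤ M t u ∧ 4 ≤ M s u) ∨
        (M s u = 2 ∧ 6 ≤ M s t ∧ 6 ≤ M t u)) :
    Function.Injective (rho M) :=
  rho_injectiveG M hM

end Pool.Agent.Results.MP_c35589_al.LargeTriangles
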