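import Mathlib
import Pool.Agent.PWM.SqMain

set_option autoImplicit false

/-!
# Faithfulness of the braid group in the Hecke algebra on the submonoid of squares

`BraidGroup M`, `HeckeAlgebra M` and `rho M` are defined in `Pool/Agent/Lib_helper18/Hecke/Defs.lean`
by generators and relations, as in the problem file (in a `CoxeterMatrix` the entry `0` is the
label `∞`). The Coxeter system is arbitrary: any rank, finite or infinite, and any labels.

Outline of the proof.

* *The representation.* At `v = 4` the Hecke algebra acts on the vectors with a coordinate `y_t` for
  each generator and one more coordinate `y_∅`, by
  `h_t y = y / 4 - (17 / 4 y_t + L_t(y)) e_t`, where `L_t(y)` is the sum of `y_∅` and the `c_{tu} y_u`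
  with `c_{tu} c_{ut} = 4 cos² (π / m_{tu})` for `3 ≤ m_{tu} < ∞`, `c_{tu} = 2` for `m_{tu} = ∞`
  and `c_{tu} = 0` for `m_{tu} = 2`. Up to the factor `(-1 / 4) ^ k` the power `h_t ^ k` is `Z_t^k`:
  it multiplies the coordinates different from `t` by `(-1) ^ k`, and the new coordinate `t` is
  `16 ^ k y_t + 4 / 17 (16 ^ k - (-1) ^ k) L_t(y)`.
* *Good vectors.* Nonnegative vectors with all relevant coordinates `≥ 1`; and vectors with a
  coordinate `s`, such that `s` commutes with no other generator, which is at least `16` times the
  sum of all negative parts. The letters `Z_t^k` with `k ≥ 2`, which is even or for which `t`
  commutes with no other generator, keep the set of good vectors (`step`).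
* *Descents.* `t` is a descent of `y` if `y_t ≥ 2` and `y_t ≥ 30 L_t(y)`. After the letter `Z_t^k` of a
  good vector `t` is a descent (`step`), and two descents of a good vector commute
  (`descents_commute`). Hence a descent of a word can be moved to its front (`front`), and all its
  letters can be collected there (`collect`).
* *The exponents.* If two words have the same image, they have the same length (coordinate `∅`) and
  the same descents; after cancellation at a common descent `t` one word starts with a power
  `σ_t ^ d` and the other one has no descent `t`. This is impossible for `d ≥ 2` by the first
  property and for `d = 1` by `exponent_one`.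
-/

namespace Pool.Agent.Results.MP_c35589_al.SquaresMonoid

open Pool.Agent.HeckeCox

/-- For every Coxeter system the natural map from the braid group to the units of the generic Hecke
algebra is injective on the submonoid which is generated by the squares of all generators and by
the cubes of the generators which commute with no other generator. -/
theorem result {B : Type*} (M : CoxeterMatrix B) :
    Set.InjOn (rho M) (Submonoid.closure
      {g : BraidGroup M | ∃ s : B, g = PresentedGroup.of s ^ 2 ∨
        ((∀ t, t ≠ s → M s t ≠ 2) ∧ g = PresentedGroup.of s ^ 3)} : Set (BraidGroup M)) :=
  Pool.Agent.PWM.inj_squares M

end Pool.Agent.Results.MP_c35589_al.SquaresMonoid
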